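import Pool.Agent.Helper98.PS.Spec

set_option autoImplicit false

/-! Swarm PS: lemmas on actions, used in the parts IRF and LIN. -/

namespace Pool.Agent.Helper51.PS

open Pool.Agent.Helper98.PS

section act

variable {K V : Type} [Group K] [AddCommGroup V] (ρ : Act K V)

/-- If `x` acts trivially, its normal closure acts trivially. -/
theorem triv {x : K} (hx : Subgroup.normalClosure {x} = ⊤) (h : ∀ v, ρ.f x v = v) :
    ∀ k v, ρ.f k v = v := by
  let M : Subgroup K :=
    { carrier := {k | ∀ v, ρ.f k v = v}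
      mul_mem' := by
        intro a b ha hb v
        rw [ρ.mul', hb, ha]
      one_mem' := ρ.one'
      inv_mem' := by
        intro a ha v
        have := ρ.inv_f a v
        rw [ha v] at this
        exact this }
  have hM : M.Normal := by
    constructor
    intro a ha g v
    show ρ.f (g * a * g⁻¹) v = v
    rw [ρ.mul', ρ.mul', ha, ρ.f_inv]
  have h1 : Subgroup.normalClosure {x} ≤ M :=
    Subgroup.normalClosure_le_normal (Set.singleton_subset_iff.2 h)
  rw [hx] at h1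
  intro k
  exact h1 (Subgroup.mem_top k)

theorem dS_res (W : AddSubgroup V) (h : ρ.Stb W) (x : K) (w : W) (hw : w ∈ (ρ.res W h).dS x) :
    (w : V) ∈ ρ.dS x := by
  rw [Act.mem_dS] at hw ⊢
  obtain ⟨v, hv⟩ := hw
  exact ⟨v, by rw [← hv]; rfl⟩

theorem dS_quo (W : AddSubgroup V) (h : ρ.Stb W) (x : K) (w : V ⧸ W) :
    w ∈ (ρ.quo W h).dS x ↔ ∃ v ∈ ρ.dS x, (v : V ⧸ W) = w := by
  rw [Act.mem_dS]
  constructor
  · rintro ⟨v, hv⟩
    obtain ⟨v, rfl⟩ := QuotientAddGroup.mk_surjective v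
    exact ⟨ρ.f x v - v, ⟨v, rfl⟩, hv⟩
  · rintro ⟨v, ⟨u, rfl⟩, rfl⟩
    exact ⟨(u : V ⧸ W), rfl⟩

theorem fin_res (W : AddSubgroup V) (h : ρ.Stb W) (x : K) (hf : (ρ.dS x : Set V).Finite) :
    ((ρ.res W h).dS x : Set W).Finite := by
  apply Set.Finite.subset (hf.preimage (f := ((↑) : W → V)) Subtype.val_injective.injOn)
  intro w hw
  exact dS_res ρ W h x w hw

theorem fin_quo (W : AddSubgroup V) (h : ρ.Stb W) (x : K) (hf : (ρ.dS x : Set V).Finite) :
    ((ρ.quo W h).dS x : Set (V ⧸ W)).Finite := by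
  apply Set.Finite.subset (hf.image (fun v : V => (v : V ⧸ W)))
  intro w hw
  obtain ⟨v, hv, hv'⟩ := (dS_quo ρ W h x w).1 hw
  exact ⟨v, hv, hv'⟩

theorem card_res_le (W : AddSubgroup V) (h : ρ.Stb W) (x : K) (hf : (ρ.dS x : Set V).Finite) :
    Nat.card ((ρ.res W h).dS x) ≤ Nat.card (ρ.dS x) := by
  have : Finite (ρ.dS x) := hf
  apply Nat.card_le_card_of_injective
    (fun w : (ρ.res W h).dS x => (⟨((w : W) : V), dS_res ρ W h x w w.2⟩ : ρ.dS x))
  intro a b hab
  apply Subtype.ext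
  apply Subtype.ext
  exact congrArg (fun z : ρ.dS x => (z : V)) hab

theorem card_quo_le (W : AddSubgroup V) (h : ρ.Stb W) (x : K) (hf : (ρ.dS x : Set V).Finite) :
    Nat.card ((ρ.quo W h).dS x) ≤ Nat.card (ρ.dS x) := by
  have : Finite (ρ.dS x) := hf
  apply Nat.card_le_card_of_surjective
    (fun v : ρ.dS x => (⟨((v : V) : V ⧸ W), (dS_quo ρ W h x _).2 ⟨v, v.2, rfl⟩⟩ :
      (ρ.quo W h).dS x))
  rintro ⟨w, hw⟩
  obtain ⟨v, hv, rfl⟩ := (dS_quo ρ W h x w).1 hw
  exact ⟨⟨v, hv⟩, rfl⟩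

theorem card_res_lt (W : AddSubgroup V) (h : ρ.Stb W) (x : K) (hf : (ρ.dS x : Set V).Finite)
    (v : V) (hv : ρ.f x v - v ∉ W) :
    Nat.card ((ρ.res W h).dS x) < Nat.card (ρ.dS x) := by
  have : Finite (ρ.dS x) := hf
  have hle := card_res_le ρ W h x hf
  rcases hle.lt_or_eq with h1 | h1
  · exact h1
  exfalso
  let g : (ρ.res W h).dS x → ρ.dS x := fun w => ⟨((w : W) : V), dS_res ρ W h x w w.2⟩
  have hg : Function.Injective g := by
    intro a b hab
    apply Subtype.ext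
    apply Subtype.ext
    exact congrArg (fun z : ρ.dS x => (z : V)) hab
  have hs : Function.Surjective g := by
    have hfin : Finite ((ρ.res W h).dS x) := Finite.of_injective g hg
    exact ((Nat.bijective_iff_injective_and_card g).2 ⟨hg, h1⟩).2
  obtain ⟨w, hw⟩ := hs ⟨ρ.f x v - v, ⟨v, rfl⟩⟩
  apply hv
  have := congrArg (fun z : ρ.dS x => (z : V)) hw
  have h2 : ((w : W) : V) = ρ.f x v - v := this
  rw [← h2]
  exact (w : W).2

theorem card_quo_lt (W : AddSubgroup V) (h : ρ.Stb W) (x : K) (hf : (ρ.dS x : Set V).Finite)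
    (w : V) (hw : w ∈ W) (hne : ρ.f x w ≠ w) :
    Nat.card ((ρ.quo W h).dS x) < Nat.card (ρ.dS x) := by
  have : Finite (ρ.dS x) := hf
  have hle := card_quo_le ρ W h x hf
  rcases hle.lt_or_eq with h1 | h1
  · exact h1
  exfalso
  let g : ρ.dS x → (ρ.quo W h).dS x := fun v => ⟨((v : V) : V ⧸ W),
    (dS_quo ρ W h x _).2 ⟨v, v.2, rfl⟩⟩
  have hs : Function.Surjective g := by
    rintro ⟨w, hw⟩
    obtain ⟨v, hv, rfl⟩ := (dS_quo ρ W h x w).1 hw
    exact ⟨⟨v, hv⟩, rfl⟩
  have hi : Function.Injective g :=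
    ((Nat.bijective_iff_surjective_and_card g).2 ⟨hs, h1.symm⟩).1
  have h2 : g ⟨ρ.f x w - w, ⟨w, rfl⟩⟩ = g 0 := by
    apply Subtype.ext
    show ((ρ.f x w - w : V) : V ⧸ W) = ((0 : V) : V ⧸ W)
    rw [QuotientAddGroup.eq]
    have h3 : -(ρ.f x w - w) + 0 = w - ρ.f x w := by abel
    rw [h3]
    exact W.sub_mem hw (h x w hw)
  have h4 := congrArg (fun z : ρ.dS x => (z : V)) (hi h2)
  have h5 : ρ.f x w - w = 0 := h4
  exact hne (sub_eq_zero.1 h5)

/-- The subgroup generated by the images of `u`. -/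
def orb (u : V) : AddSubgroup V := AddSubgroup.closure (Set.range fun k : K => ρ.f k u)

theorem mem_orb (u : V) : u ∈ orb ρ u := by
  apply AddSubgroup.subset_closure
  exact ⟨1, ρ.one' u⟩

theorem orb_le {u : V} {W : AddSubgroup V} (hW : ρ.Stb W) (hu : u ∈ W) : orb ρ u ≤ W := by
  unfold orb
  rw [AddSubgroup.closure_le]
  rintro _ ⟨k, rfl⟩
  exact hW k u hu

theorem stb_orb (u : V) : ρ.Stb (orb ρ u) := by
  intro k w hw
  unfold orb at hw ⊢
  induction hw using AddSubgroup.closure_induction with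
  | mem w hw =>
    obtain ⟨l, rfl⟩ := hw
    apply AddSubgroup.subset_closure
    exact ⟨k * l, ρ.mul' k l u⟩
  | zero => rw [ρ.zero']; exact AddSubgroup.zero_mem _
  | add a b _ _ ha hb => rw [ρ.add']; exact AddSubgroup.add_mem _ ha hb
  | neg a _ ha => rw [ρ.neg']; exact AddSubgroup.neg_mem _ ha

/-- Finitely many group elements suffice. -/
theorem fin_orb (u w : V) (hw : w ∈ orb ρ u) : ∃ X : Set K, X.Finite ∧
    w ∈ AddSubgroup.closure ((fun k : K => ρ.f k u) '' X) := by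
  unfold orb at hw
  induction hw using AddSubgroup.closure_induction with
  | mem w hw =>
    obtain ⟨l, rfl⟩ := hw
    refine ⟨{l}, Set.finite_singleton l, AddSubgroup.subset_closure ⟨l, rfl, rfl⟩⟩
  | zero => exact ⟨∅, Set.finite_empty, AddSubgroup.zero_mem _⟩
  | add a b _ _ ha hb =>
    obtain ⟨X, hX, ha⟩ := ha
    obtain ⟨Y, hY, hb⟩ := hb
    refine ⟨X ∪ Y, hX.union hY, AddSubgroup.add_mem _ ?_ ?_⟩
    · exact AddSubgroup.closure_mono (Set.image_mono Set.subset_union_left) ha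
    · exact AddSubgroup.closure_mono (Set.image_mono Set.subset_union_right) hb
  | neg a _ ha =>
    obtain ⟨X, hX, ha⟩ := ha
    exact ⟨X, hX, AddSubgroup.neg_mem _ ha⟩

end act

/-- Finitely generated abelian groups of exponent `q` are finite. -/
theorem fin_closure {V : Type} [AddCommGroup V] (q : ℕ) (hq : 0 < q) (h : ∀ v : V, q • v = 0)
    (S : Set V) (hS : S.Finite) : ((AddSubgroup.closure S : AddSubgroup V) : Set V).Finite := by
  have h1 : AddGroup.FG (AddSubgroup.closure S) := by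
    rw [AddGroup.fg_iff_addSubgroup_fg]
    exact ⟨hS.toFinset, by simp⟩
  have h2 : IsAddTorsion (AddSubgroup.closure S) := by
    intro v
    rw [isOfFinAddOrder_iff_nsmul_eq_zero]
    exact ⟨q, hq, Subtype.ext (h v)⟩
  have : Finite (AddSubgroup.closure S) := AddCommGroup.finite_of_fg_isAddTorsion _ h2
  exact this

end Pool.Agent.Helper51.PS
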