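import Pool.Agent.Helper51.PS.Base

set_option autoImplicit false

/-! Swarm PS, part IRF: an irreducible module with finite `dS` is finite. -/

namespace Pool.Agent.Helper51.PS

open Pool.Agent.Helper98.PS

/-- The case of a finite group acting on a finite module generated by `u = x v₀ - v₀`. -/
theorem irf_core (hL : S_L) (H W : Type) [Group H] [Finite H] [Group.IsSolvable H] [AddCommGroup W]
    [Finite W] (ρ : Act H W) (x : H) (hx : Subgroup.normalClosure {x} = ⊤) (u v₀ : W)
    (hu : ρ.f x v₀ - v₀ = u) (hu0 : u ≠ 0)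
    (hgen : ∀ Z : AddSubgroup W, ρ.Stb Z → u ∈ Z → Z = ⊤) :
    ∃ Y : AddSubgroup W, ρ.Stb Y ∧ u ∉ Y ∧ Nat.card (W ⧸ Y) ≤ Nat.card (ρ.dS x) ^ 6 := by
  have hfin : ({Y : AddSubgroup W | ρ.Stb Y ∧ u ∉ Y}).Finite := Set.toFinite _
  have hne : ({Y : AddSubgroup W | ρ.Stb Y ∧ u ∉ Y}).Nonempty := by
    refine ⟨⊥, ?_, ?_⟩
    · intro k w hw
      rw [AddSubgroup.mem_bot] at hw ⊢
      rw [hw, ρ.zero']
    · rw [AddSubgroup.mem_bot]
      exact hu0
  obtain ⟨Y, hY, hmax⟩ := hfin.exists_maximal hne
  obtain ⟨hYs, hYu⟩ := hY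
  refine ⟨Y, hYs, hYu, ?_⟩
  have hirr : (ρ.quo Y hYs).Irr := by
    constructor
    · refine ⟨(u : W ⧸ Y), ?_⟩
      intro hcon
      rw [QuotientAddGroup.eq_zero_iff] at hcon
      exact hYu hcon
    · intro Z hZ
      let Z' : AddSubgroup W := Z.comap (QuotientAddGroup.mk' Y)
      have hZ'm : ∀ w : W, w ∈ Z' ↔ (w : W ⧸ Y) ∈ Z := fun w => Iff.rfl
      have hZ's : ρ.Stb Z' := by
        intro k w hw
        exact hZ k _ hw
      have hYZ : Y ≤ Z' := by
        intro w hw
        rw [hZ'm, (QuotientAddGroup.eq_zero_iff w).2 hw]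
        exact Z.zero_mem
      by_cases huZ : u ∈ Z'
      · right
        have h1 := hgen Z' hZ's huZ
        rw [eq_top_iff]
        intro z _
        obtain ⟨w, rfl⟩ := QuotientAddGroup.mk_surjective z
        have : w ∈ Z' := by rw [h1]; exact AddSubgroup.mem_top w
        exact this
      · left
        have h1 : Z' ≤ Y := hmax ⟨hZ's, huZ⟩ hYZ
        rw [eq_bot_iff]
        intro z hz
        obtain ⟨w, rfl⟩ := QuotientAddGroup.mk_surjective z
        have h2 : w ∈ Y := h1 hz
        exact (QuotientAddGroup.eq_zero_iff w).2 h2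
  have hnt : ∃ v, (ρ.quo Y hYs).f x v ≠ v := by
    refine ⟨(v₀ : W ⧸ Y), ?_⟩
    intro hcon
    have h4 : ((ρ.f x v₀ : W) : W ⧸ Y) = (v₀ : W ⧸ Y) := hcon
    rw [QuotientAddGroup.eq] at h4
    apply hYu
    have h5 : u = -(-ρ.f x v₀ + v₀) := by rw [← hu]; abel
    rw [h5]
    exact Y.neg_mem h4
  have h1 := hL H (W ⧸ Y) (ρ.quo Y hYs) x hirr hx hnt
  exact h1.trans (Nat.pow_le_pow_left (card_quo_le ρ Y hYs x (Set.toFinite _)) 6)

theorem irf (hLOC : S_LOC) (hL : S_L) (hNCL : S_NCL) : S_IRF := by
  intro p K _ T x hG V _ ρ q hq hV hirr hf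
  have hncl := hNCL p K T x hG
  by_cases htriv : ∀ v, ρ.f x v = v
  · -- trivial action
    have h1 := triv ρ hncl htriv
    obtain ⟨v, hv⟩ := hirr.1
    have h2 : ρ.Stb (AddSubgroup.closure {v}) := by
      intro k w hw
      rw [h1]
      exact hw
    rcases hirr.2 _ h2 with h3 | h3
    · exfalso
      apply hv
      have : v ∈ AddSubgroup.closure {v} := AddSubgroup.subset_closure rfl
      rw [h3] at this
      exact this
    · have h4 := fin_closure q hq.pos hV {v} (Set.finite_singleton v)
      rw [h3] at h4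
      exact Set.finite_univ_iff.1 h4
  · push Not at htriv
    obtain ⟨v₀, hv₀⟩ := htriv
    set u := ρ.f x v₀ - v₀ with hu
    have hu0 : u ≠ 0 := sub_ne_zero.2 hv₀
    have horb : ∀ w : V, w ≠ 0 → orb ρ w = ⊤ := by
      intro w hw
      rcases hirr.2 _ (stb_orb ρ w) with h | h
      · exfalso
        apply hw
        have := mem_orb ρ w
        rw [h] at this
        exact this
      · exact h
    -- every finite set has at most `s ^ 6` elements
    have key : ∀ F : Finset V, F.card ≤ Nat.card (ρ.dS x) ^ 6 := by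
      intro F
      have hX : ∀ f : V, ∃ X : Set K, X.Finite ∧
          f ∈ AddSubgroup.closure ((fun k : K => ρ.f k u) '' X) := by
        intro f
        exact fin_orb ρ u f (by rw [horb u hu0]; exact AddSubgroup.mem_top f)
      choose X hXf hXm using hX
      let X₁ : Set K := ⋃ f ∈ insert v₀ (F : Set V), X f
      have hX₁ : X₁.Finite := by
        apply Set.Finite.biUnion
        · exact F.finite_toSet.insert v₀
        · intro f _
          exact hXf f
      let U₁ : AddSubgroup V := AddSubgroup.closure ((fun k : K => ρ.f k u) '' X₁)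
      have hU₁ : (U₁ : Set V).Finite := fin_closure q hq.pos hV _ (hX₁.image _)
      have hFU : ∀ f ∈ insert v₀ (F : Set V), f ∈ U₁ := by
        intro f hfm
        have h1 : X f ⊆ X₁ := Set.subset_biUnion_of_mem (u := X) hfm
        exact AddSubgroup.closure_mono (Set.image_mono h1) (hXm f)
      have hZ : ∀ w : V, ∃ X : Set K, X.Finite ∧ (w ≠ 0 →
          u ∈ AddSubgroup.closure ((fun k : K => ρ.f k w) '' X)) := by
        intro w
        by_cases hw : w = 0
        · exact ⟨∅, Set.finite_empty, fun h => absurd hw h⟩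
        · obtain ⟨X, hX, hm⟩ := fin_orb ρ w u (by rw [horb w hw]; exact AddSubgroup.mem_top u)
          exact ⟨X, hX, fun _ => hm⟩
      choose Z hZf hZm using hZ
      let Y₁ : Set K := X₁ ∪ ⋃ w ∈ (U₁ : Set V), Z w
      have hY₁ : Y₁.Finite := by
        apply hX₁.union
        apply Set.Finite.biUnion hU₁
        intro w _
        exact hZf w
      obtain ⟨H, hHf, hHX, hxH, hHsol, hHn⟩ := hLOC p K T x hG Y₁ hY₁
      have : Finite H := hHf
      have : Group.IsSolvable H := hHsol
      let ρH := ρ.sub H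
      let W : AddSubgroup V := orb ρH u
      have hWs : ρH.Stb W := stb_orb ρH u
      have hWf : (W : Set V).Finite := by
        apply fin_closure q hq.pos hV
        exact Set.finite_range _
      have : Finite W := hWf
      have hU₁W : U₁ ≤ W := by
        show AddSubgroup.closure _ ≤ W
        rw [AddSubgroup.closure_le]
        rintro _ ⟨k, hk, rfl⟩
        apply AddSubgroup.subset_closure
        exact ⟨⟨k, hHX (Set.subset_union_left hk)⟩, rfl⟩
      have huW : u ∈ W := mem_orb ρH u
      have hv₀W : v₀ ∈ W := hU₁W (hFU v₀ (Set.mem_insert _ _))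
      let ρW := ρH.res W hWs
      let xH : H := ⟨x, hxH⟩
      have hxn : Subgroup.normalClosure {xH} = ⊤ := by
        rw [eq_top_iff]
        intro h _
        have h1 : H ≤ (Subgroup.normalClosure {xH}).map H.subtype := by
          apply hHn
          · exact ⟨xH, Subgroup.subset_normalClosure rfl, rfl⟩
          · rintro t ht _ ⟨e, he, rfl⟩
            have h2 := (inferInstance : (Subgroup.normalClosure {xH}).Normal).conj_mem e he ⟨t, ht⟩
            exact ⟨_, h2, rfl⟩
        obtain ⟨e, he, heq⟩ := h1 h.2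
        have h3 : e = h := Subtype.ext heq
        rw [← h3]
        exact he
      obtain ⟨Y, hYs, hYu, hYc⟩ := irf_core hL H W ρW xH hxn ⟨u, huW⟩ ⟨v₀, hv₀W⟩
        (Subtype.ext hu.symm) (fun hcon => hu0 (congrArg (fun z : W => (z : V)) hcon)) (by
          intro Z hZs hZu
          rw [eq_top_iff]
          rintro ⟨w, hw⟩ _
          have h1 : W ≤ Z.map W.subtype := by
            apply orb_le ρH
            · rintro k _ ⟨z, hz, rfl⟩
              exact ⟨ρW.f k z, hZs k z hz, rfl⟩
            · exact ⟨⟨u, huW⟩, hZu, rfl⟩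
          obtain ⟨z, hz, heq⟩ := h1 hw
          have h3 : z = ⟨w, hw⟩ := Subtype.ext heq
          rw [← h3]
          exact hz)
      -- `Y ∩ U₁ = 0`
      have hYU : ∀ w : W, w ∈ Y → (w : V) ∈ U₁ → (w : V) = 0 := by
        intro w hw hwU
        by_contra hne
        apply hYu
        have h1 := hZm (w : V) hne
        have h2 : AddSubgroup.closure ((fun k : K => ρ.f k (w : V)) '' Z (w : V)) ≤
            Y.map W.subtype := by
          rw [AddSubgroup.closure_le]
          rintro _ ⟨k, hk, rfl⟩
          have hkH : k ∈ H := by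
            apply hHX
            right
            exact Set.mem_biUnion hwU hk
          exact ⟨ρW.f ⟨k, hkH⟩ w, hYs ⟨k, hkH⟩ w hw, rfl⟩
        obtain ⟨z, hz, heq⟩ := h2 h1
        have h3 : z = ⟨u, huW⟩ := Subtype.ext heq
        rw [← h3]
        exact hz
      have h5 : F.card ≤ Nat.card (W ⧸ Y) := by
        have h6 : Nat.card F ≤ Nat.card (W ⧸ Y) := by
          apply Nat.card_le_card_of_injective (fun f : F =>
            ((⟨(f : V), hU₁W (hFU f (Set.mem_insert_of_mem _ f.2))⟩ : W) : W ⧸ Y))
          intro a b hab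
          have h7 : ((⟨(a : V), hU₁W (hFU a (Set.mem_insert_of_mem _ a.2))⟩ : W) : W ⧸ Y) =
              ((⟨(b : V), hU₁W (hFU b (Set.mem_insert_of_mem _ b.2))⟩ : W) : W ⧸ Y) := hab
          rw [QuotientAddGroup.eq] at h7
          have h8 := hYU _ h7 (by
            show -(a : V) + (b : V) ∈ U₁
            exact U₁.add_mem (U₁.neg_mem (hFU a (Set.mem_insert_of_mem _ a.2)))
              (hFU b (Set.mem_insert_of_mem _ b.2)))
          have h9 : -(a : V) + (b : V) = 0 := h8
          apply Subtype.ext
          exact neg_add_eq_zero.1 h9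
        simpa using h6
      have h10 : Nat.card (ρW.dS xH) ≤ Nat.card (ρ.dS x) := by
        have h11 : (ρH.dS xH : Set V).Finite := hf
        exact card_res_le ρH W hWs xH h11
      exact h5.trans (hYc.trans (Nat.pow_le_pow_left h10 6))
    by_contra hinf
    rw [not_finite_iff_infinite] at hinf
    obtain ⟨F, hF⟩ := Infinite.exists_subset_card_eq V (Nat.card (ρ.dS x) ^ 6 + 1)
    have := key F
    omega

end Pool.Agent.Helper51.PS
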