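import Pool.Agent.Helper51.PS.Base

set_option autoImplicit false

/-! Swarm PS, part LIN: modules of exponent `q ≠ p` with finite `dS` are centralised by `T`. -/

namespace Pool.Agent.Helper51.PS

open Pool.Agent.Helper98.PS

theorem lin (hIRR : S_IRR) (hEXT : S_EXT) (hNCL : S_NCL) : S_LIN := by
  intro p K _ T x hG
  have hncl := hNCL p K T x hG
  suffices H : ∀ n : ℕ, ∀ (V : Type) [AddCommGroup V] (ρ : Act K V) (q : ℕ), q.Prime → q ≠ p →
      (∀ v : V, q • v = 0) → (ρ.dS x : Set V).Finite → Nat.card (ρ.dS x) = n →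
      ∀ t ∈ T, ∀ v, ρ.f t v = v by
    intro V _ ρ q hq hqp hV hf
    exact H _ V ρ q hq hqp hV hf rfl
  intro n
  induction n using Nat.strong_induction_on with
  | _ n ih =>
  intro V _ ρ q hq hqp hV hf hn
  have hVres : ∀ W : AddSubgroup V, ∀ w : W, q • w = 0 := fun W w => Subtype.ext (hV w)
  have hVquo : ∀ (W : AddSubgroup V) (w : V ⧸ W), q • w = 0 := by
    intro W w
    obtain ⟨v, rfl⟩ := QuotientAddGroup.mk_surjective w
    have : ((q • v : V) : V ⧸ W) = 0 := by rw [hV]; rfl
    exact this
  by_cases hcase : ∃ (W : AddSubgroup V), ρ.Stb W ∧ (∃ w ∈ W, ρ.f x w ≠ w) ∧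
      ∃ v, ρ.f x v - v ∉ W
  · obtain ⟨W, hW, ⟨w, hw, hne⟩, v, hv⟩ := hcase
    have h1 := ih _ (by rw [← hn]; exact card_res_lt ρ W hW x hf v hv) W (ρ.res W hW) q hq hqp
      (hVres W) (fin_res ρ W hW x hf) rfl
    have h2 := ih _ (by rw [← hn]; exact card_quo_lt ρ W hW x hf w hw hne) (V ⧸ W) (ρ.quo W hW) q
      hq hqp (hVquo W) (fin_quo ρ W hW x hf) rfl
    refine hEXT p K T x hG V ρ q hq.pos hV W hW ?_ ?_
    · intro t ht w hw
      exact congrArg (fun z : W => (z : V)) (h1 t ht ⟨w, hw⟩)
    · intro t ht v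
      have h3 := h2 t ht (v : V ⧸ W)
      have h4 : ((ρ.f t v : V) : V ⧸ W) = (v : V ⧸ W) := h3
      rw [QuotientAddGroup.eq] at h4
      have h5 : ρ.f t v - v = -(-ρ.f t v + v) := by abel
      rw [h5]
      exact W.neg_mem h4
  · push Not at hcase
    -- every stable subgroup: K trivial on W or on V/W
    have hdich : ∀ W : AddSubgroup V, ρ.Stb W → (∀ k : K, ∀ w ∈ W, ρ.f k w = w) ∨
        ∀ k : K, ∀ v, ρ.f k v - v ∈ W := by
      intro W hW
      by_cases h1 : ∀ w ∈ W, ρ.f x w = w
      · left
        have h2 := triv (ρ.res W hW) hncl (fun w => Subtype.ext (h1 w w.2))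
        intro k w hw
        exact congrArg (fun z : W => (z : V)) (h2 k ⟨w, hw⟩)
      · right
        push Not at h1
        have h2 := hcase W hW h1
        have h3 : ∀ v : V ⧸ W, (ρ.quo W hW).f x v = v := by
          intro v
          obtain ⟨v, rfl⟩ := QuotientAddGroup.mk_surjective v
          show ((ρ.f x v : V) : V ⧸ W) = (v : V ⧸ W)
          rw [QuotientAddGroup.eq]
          have h5 : -ρ.f x v + v = -(ρ.f x v - v) := by abel
          rw [h5]
          exact W.neg_mem (h2 v)
        have h4 := triv (ρ.quo W hW) hncl h3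
        intro k v
        have h6 : ((ρ.f k v : V) : V ⧸ W) = (v : V ⧸ W) := h4 k v
        rw [QuotientAddGroup.eq] at h6
        have h5 : ρ.f k v - v = -(-ρ.f k v + v) := by abel
        rw [h5]
        exact W.neg_mem h6
    let N₀ : AddSubgroup V :=
      { carrier := {v | ∀ k : K, ρ.f k v = v}
        add_mem' := by
          intro a b ha hb k
          rw [ρ.add', ha, hb]
        zero_mem' := fun k => ρ.zero' k
        neg_mem' := by
          intro a ha k
          rw [ρ.neg', ha] }
    have hN₀ : ∀ v, v ∈ N₀ ↔ ∀ k : K, ρ.f k v = v := fun v => Iff.rfl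
    have hsN₀ : ρ.Stb N₀ := by
      intro k w hw
      rw [(hN₀ w).1 hw k]
      exact hw
    let N₁ : AddSubgroup V := AddSubgroup.closure {d | ∃ (k : K) (v : V), d = ρ.f k v - v}
    have hmem₁ : ∀ k v, ρ.f k v - v ∈ N₁ := fun k v => AddSubgroup.subset_closure ⟨k, v, rfl⟩
    have hsN₁ : ρ.Stb N₁ := by
      intro k w hw
      have h1 : ρ.f k w = (ρ.f k w - w) + w := by abel
      rw [h1]
      exact N₁.add_mem (hmem₁ k w) hw
    have hdich' : ∀ W : AddSubgroup V, ρ.Stb W → W ≤ N₀ ∨ N₁ ≤ W := by
      intro W hW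
      rcases hdich W hW with h1 | h1
      · left
        intro w hw k
        exact h1 k w hw
      · right
        show AddSubgroup.closure _ ≤ W
        rw [AddSubgroup.closure_le]
        rintro _ ⟨k, v, rfl⟩
        exact h1 k v
    by_cases hle : N₁ ≤ N₀
    · -- `x` acts trivially
      have hx : ∀ v, ρ.f x v = v := by
        intro v
        set d := ρ.f x v - v with hd
        have hd0 : ρ.f x d = d := hle (hmem₁ x v) x
        have hpow : ∀ j : ℕ, ρ.f (x ^ j) v = v + j • d := by
          intro j
          induction j with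
          | zero => rw [pow_zero, ρ.one', zero_smul, add_zero]
          | succ j ihj =>
            rw [pow_succ', ρ.mul', ihj, ρ.add', ρ.nsmul', hd0, succ_nsmul]
            have : ρ.f x v = v + d := by rw [hd]; abel
            rw [this]
            abel
        obtain ⟨k, hk⟩ := hG.xp
        have h1 := hpow (p ^ k)
        rw [hk, ρ.one'] at h1
        have h2 : (p ^ k) • d = 0 := by
          have : v + 0 = v + (p ^ k) • d := by rw [add_zero]; exact h1
          exact (add_left_cancel this).symm
        have h3 : addOrderOf d ∣ p ^ k := addOrderOf_dvd_of_nsmul_eq_zero h2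
        have h4 : addOrderOf d ∣ q := addOrderOf_dvd_of_nsmul_eq_zero (hV d)
        have hcop : Nat.Coprime (p ^ k) q :=
          Nat.Coprime.pow_left k ((Nat.coprime_primes hG.hp hq).2 (Ne.symm hqp))
        have h5 : addOrderOf d = 1 := Nat.eq_one_of_dvd_coprimes hcop h3 h4
        have h6 : d = 0 := AddMonoid.addOrderOf_eq_one_iff.1 h5
        exact sub_eq_zero.1 h6
      intro t _ v
      exact triv ρ hncl hx t v
    · -- the middle module
      have hsV' : ρ.Stb (N₀ ⊔ N₁) := by
        intro k w hw
        rw [AddSubgroup.mem_sup] at hw ⊢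
        obtain ⟨a, ha, b, hb, rfl⟩ := hw
        exact ⟨ρ.f k a, hsN₀ k a ha, ρ.f k b, hsN₁ k b hb, (ρ.add' k a b).symm⟩
      set V' : AddSubgroup V := N₀ ⊔ N₁ with hV'
      let ρ' := ρ.res V' hsV'
      let A : AddSubgroup V' := N₀.comap V'.subtype
      have hsA : ρ'.Stb A := by
        intro k w hw
        exact hsN₀ k w hw
      have hf' : (ρ'.dS x : Set V').Finite := fin_res ρ V' hsV' x hf
      have hirr : (ρ'.quo A hsA).Irr := by
        constructor
        · obtain ⟨n₁, hn₁, hn₀⟩ := SetLike.not_le_iff_exists.1 hle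
          have hmemV : n₁ ∈ V' := (le_sup_right : N₁ ≤ N₀ ⊔ N₁) hn₁
          refine ⟨((⟨n₁, hmemV⟩ : V') : V' ⧸ A), ?_⟩
          intro hcon
          rw [QuotientAddGroup.eq_zero_iff] at hcon
          exact hn₀ hcon
        · intro Z hZ
          let W : AddSubgroup V := (Z.comap (QuotientAddGroup.mk' A)).map V'.subtype
          have hW : ∀ w, w ∈ W ↔ ∃ v' : V', ((v' : V' ⧸ A) ∈ Z) ∧ (v' : V) = w := by
            intro w
            constructor
            · rintro ⟨v', hv', hw⟩
              exact ⟨v', hv', hw⟩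
            · rintro ⟨v', hv', hw⟩
              exact ⟨v', hv', hw⟩
          have hsW : ρ.Stb W := by
            intro k w hw
            obtain ⟨v', hv', rfl⟩ := (hW w).1 hw
            rw [hW]
            exact ⟨ρ'.f k v', hZ k _ hv', rfl⟩
          rcases hdich' W hsW with h1 | h1
          · left
            rw [eq_bot_iff]
            intro z hz
            obtain ⟨v', rfl⟩ := QuotientAddGroup.mk_surjective z
            have h2 : (v' : V) ∈ N₀ := h1 ((hW _).2 ⟨v', hz, rfl⟩)
            have h3 : ((v' : V' ⧸ A)) = 0 := (QuotientAddGroup.eq_zero_iff _).2 h2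
            exact h3
          · right
            rw [eq_top_iff]
            intro z _
            obtain ⟨v', rfl⟩ := QuotientAddGroup.mk_surjective z
            obtain ⟨a, ha, b, hb, hab⟩ := AddSubgroup.mem_sup.1 v'.2
            obtain ⟨w', hw', hwb⟩ := (hW b).1 (h1 hb)
            have h3 : ((v' : V' ⧸ A)) = ((w' : V' ⧸ A)) := by
              rw [QuotientAddGroup.eq]
              show ((-v' + w' : V') : V) ∈ N₀
              have h4 : ((-v' + w' : V') : V) = -a := by
                push_cast
                rw [hwb, ← hab]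
                abel
              rw [h4]
              exact N₀.neg_mem ha
            show ((v' : V' ⧸ A)) ∈ Z
            rw [h3]
            exact hw'
      have hq' : ∀ w : V' ⧸ A, q • w = 0 := by
        intro w
        obtain ⟨v, rfl⟩ := QuotientAddGroup.mk_surjective w
        have : ((q • v : V') : V' ⧸ A) = 0 := by rw [hVres V' v]; rfl
        exact this
      have h7 := hIRR p K T x hG (V' ⧸ A) (ρ'.quo A hsA) q hq hq' hirr (fin_quo ρ' A hsA x hf')
      have h8 : ∀ t ∈ T, ∀ v : V', ρ'.f t v = v := by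
        refine hEXT p K T x hG V' ρ' q hq.pos (hVres V') A hsA ?_ ?_
        · intro t _ w hw
          exact Subtype.ext (hw t)
        · intro t ht v
          have h4 : ((ρ'.f t v : V') : V' ⧸ A) = (v : V' ⧸ A) := h7 t ht v
          rw [QuotientAddGroup.eq] at h4
          have h5 : ρ'.f t v - v = -(-ρ'.f t v + v) := by abel
          rw [h5]
          exact A.neg_mem h4
      refine hEXT p K T x hG V ρ q hq.pos hV V' hsV' ?_ ?_
      · intro t ht w hw
        exact congrArg (fun z : V' => (z : V)) (h8 t ht ⟨w, hw⟩)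
      · intro t _ v
        exact (le_sup_right : N₁ ≤ N₀ ⊔ N₁) (hmem₁ t v)

end Pool.Agent.Helper51.PS
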